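import Pool.Agent.X287.ST8
import Pool.Agent.TH119.MX.Gal

/-!
# Stark's conjecture for all the characters of abelian extensions: unconditional convergent sums over primes, in the group ring

By Brauer's theorem and the invariance under induction Stark's conjecture (Q1, for all `L/K`) is equivalent to the assertion for
the abelian extensions `H/K` of all number fields `K`; here Artin's reciprocity law gives a modulus `𝔪` (which may be
enlarged by any finite set of primes: `S` = the primes dividing `𝔪` and the archimedean places) such that the Artin symbol is a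
map `c` from the ideals of `K` to `G = Gal(H/K)` which is multiplicative on the ideals prime to `𝔪` and trivial on the `(x)` with
`x ≡ 1` modulo `𝔪`, `x` totally positive.

So let `K` be any number field, `𝔪 ≠ (0), (1)` an ideal, `G` a finite abelian group and `c` such a map. For a character `χ` of `G` let
`L(s, χ) = ∏_{v ∤ 𝔪} (1 - χ(c(v)) Nv^{-s})⁻¹`, `Re s > 1`, `r(χ)` the order at `0` and `L*(χ)` the leading coefficient there, and for a
fixed `γ > π/2`

`S_χ(T) = ∑_{v ∤ 𝔪} ∑_{k ≥ 1} χ(c(v))^k exp(iγ k log Nv / T) / (k Γ(1 + k log Nv / T))`.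

UNCONDITIONALLY:

1. (Hecke) all the `L(s, χ)` continue to functions analytic on `ℂ - {1}`, meromorphic at `1`; the continuation is unique; the sums
   converge absolutely; `r(χ)` is at least the number of complex places of `K`.
2. `S_χ(T) = log L*(χ) - r(χ) (log T - Λ(γ)) + O(1/T)`, so that for all complex `R(χ)` the quotients `A(χ) = R(χ) / L*(χ)` (Stark's
   `A_S(χ, φ)` for `R(χ) = R_S(χ, φ)`) are the limits, with error `O(1/T)`, of
   `A_T(χ) = R(χ) (T e^{-Λ(γ)})^{-r(χ)} exp(-S_χ(T))`.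
3. The following are equivalent:
   (a) Stark's formula for all the characters: `A(χ)^σ = A(χ^σ)` for all `χ` and all `σ ∈ Aut(ℂ)`;
   (b) the element `∑_χ A(χ) e_χ` of `ℂ[G]` (`e_χ = |G|⁻¹ ∑_g χ(g⁻¹) g`) has rational coefficients;
   (c) for some `N ≥ 1` the coefficients of the elements `N ∑_χ A_T(χ) e_χ` come simultaneously arbitrarily close to
       integers for arbitrarily large `T`;
   (d) for some `N ≥ 1` these coefficients are `n(g) + O(1/T)` with integers `n(g)`.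

No property of `L`-functions is assumed (neither continuation nor information on zeros).

Ingredients: Hecke's continuation (`Pool.Agent.Y773`, `Pool.Agent.Y772`), the rotated law for series with complex
coefficients (`Pool.Agent.X287.CR`, `ST`), Fourier analysis on `G`, and the fact that the complex numbers fixed by all the
automorphisms of `ℂ` are rational (`Pool.Agent.TH119.MX`).
-/

set_option autoImplicit false
set_option linter.unusedSectionVars false

open Filter Topology Asymptotics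
open IsDedekindDomain NumberField

namespace Pool.Agent.Results.MP_46b841_nt.AbelianCharactersUnconditional

section defs
variable {K : Type} [Field K] [NumberField K] {G : Type} [CommGroup G] [Fintype G]

/-- `c` is multiplicative on the ideals prime to `𝔪`, and trivial on the ideals `(x)` with `x ≡ 1` modulo `𝔪` and
`x` totally positive. -/
structure IsClassMap (𝔪 : Ideal (𝓞 K)) (c : Ideal (𝓞 K) → G) : Prop where
  mul : ∀ I J : Ideal (𝓞 K), IsCoprime I 𝔪 → IsCoprime J 𝔪 → c (I * J) = c I * c J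
  ray : ∀ x : 𝓞 K, x ≠ 0 → x - 1 ∈ 𝔪 → (∀ σ : K →+* ℝ, 0 < σ (x : K)) → c (Ideal.span {x}) = 1

/-- The primes which do not divide `𝔪`. -/
abbrev Places (𝔪 : Ideal (𝓞 K)) : Type := {v : HeightOneSpectrum (𝓞 K) // IsCoprime v.asIdeal 𝔪}

/-- The complex characters of the finite abelian group `G`. -/
abbrev Character (G : Type) [CommGroup G] : Type := AddChar (Additive G) ℂ

/-- The value `χ(g)`. -/
def value (χ : Character G) (g : G) : ℂ := χ (Additive.ofMul g)

/-- The conjugate character `χ^σ = σ ∘ χ`. -/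
noncomputable def conj (σ : ℂ ≃+* ℂ) (χ : Character G) : Character G := (σ : ℂ →* ℂ).compAddChar χ

/-- `Λ` is the function `L(s, χ)`, continued to `ℂ - {1}` and meromorphic at `1`. -/
structure IsL (𝔪 : Ideal (𝓞 K)) (c : Ideal (𝓞 K) → G) (χ : Character G) (Λ : ℂ → ℂ) : Prop where
  prod : ∀ s : ℂ, 1 < s.re → HasProd (fun v : Places 𝔪 =>
    (1 - value χ (c v.1.asIdeal) * ((Ideal.absNorm v.1.asIdeal : ℕ) : ℂ) ^ (-s))⁻¹) (Λ s)
  analytic : ∀ s : ℂ, s ≠ 1 → AnalyticAt ℂ Λ s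
  mero : MeromorphicAt Λ 1

/-- The term of the prime `v = x.1` and the exponent `k = x.2 + 1` in `S_χ(T)`. -/
noncomputable def term (𝔪 : Ideal (𝓞 K)) (c : Ideal (𝓞 K) → G) (γ T : ℝ) (χ : Character G)
    (x : Places 𝔪 × ℕ) : ℂ :=
  value χ (c x.1.1.asIdeal) ^ (x.2 + 1) *
      Complex.exp ((γ * ((x.2 + 1) * Real.log (Ideal.absNorm x.1.1.asIdeal : ℕ) / T) : ℝ) * Complex.I) /
    (((x.2 + 1) * Real.Gamma (1 + (x.2 + 1) * Real.log (Ideal.absNorm x.1.1.asIdeal : ℕ) / T) : ℝ) : ℂ)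

/-- The sum `S_χ(T)`. -/
noncomputable def charSum (𝔪 : Ideal (𝓞 K)) (c : Ideal (𝓞 K) → G) (γ T : ℝ) (χ : Character G) : ℂ :=
  ∑' x, term 𝔪 c γ T χ x

/-- The constant `Λ(γ) = ∫_0^∞ (e^{-t} - e^{iγt} / Γ(1 + t)) dt / t`. -/
noncomputable def Lambda (γ : ℝ) : ℂ := ∫ t in Set.Ioi (0 : ℝ),
  (Complex.exp (-(t : ℂ)) - Complex.exp ((γ * t : ℝ) * Complex.I) * ((Real.Gamma (1 + t))⁻¹ : ℝ)) / t

/-- The leading coefficient at `0`. -/
noncomputable def lead (Λ : ℂ → ℂ) : ℂ := meromorphicTrailingCoeffAt Λ 0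

/-- `A_T(χ) = R(χ) (T e^{-Λ(γ)})^{-r(χ)} exp(-S_χ(T))`. -/
noncomputable def approx (𝔪 : Ideal (𝓞 K)) (c : Ideal (𝓞 K) → G) (γ T : ℝ) (r : Character G → ℤ)
    (R : Character G → ℂ) (χ : Character G) : ℂ :=
  R χ * ((T : ℂ) * Complex.exp (-Lambda γ)) ^ (-r χ) * Complex.exp (-charSum 𝔪 c γ T χ)

/-- The coefficient of `g` in the element `∑_χ A(χ) e_χ` of the group ring. -/
noncomputable def coef (A : Character G → ℂ) (g : G) : ℂ :=
  (Fintype.card G : ℂ)⁻¹ * ∑ χ : Character G, A χ * value χ g⁻¹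

end defs

section aux
open Pool.Agent.X287.ST Pool.Agent.X287.CR

variable {K : Type} [Field K] [NumberField K] {G : Type} [CommGroup G] [Fintype G]
variable {𝔪 : Ideal (𝓞 K)} {c : Ideal (𝓞 K) → G}

theorem tm_eq (γ T : ℝ) (χ : Character G) (x : Places 𝔪 × ℕ) :
    tm (qq 𝔪) (al 𝔪 c (chr χ)) 0 γ T x = -term 𝔪 c γ T χ x := by
  unfold tm term lam al qq value
  simp only [Finset.univ_unique, Finset.sum_const, Finset.card_singleton, one_smul, zero_mul, neg_zero,
    Complex.exp_zero, mul_one]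
  rw [neg_mul, neg_div]
  rfl

theorem Su_eq (γ T : ℝ) (χ : Character G) :
    Su (qq 𝔪) (al 𝔪 c (chr χ)) 0 γ T = -charSum 𝔪 c γ T χ := by
  unfold Su charSum
  rw [← tsum_neg]
  exact tsum_congr fun x => tm_eq γ T χ x

theorem fac_eq (χ : Character G) (s : ℂ) : fac (qq 𝔪) (al 𝔪 c (chr χ)) s = fun v : Places 𝔪 =>
    (1 - value χ (c v.1.asIdeal) * ((Ideal.absNorm v.1.asIdeal : ℕ) : ℂ) ^ (-s))⁻¹ := by
  funext v
  unfold fac al qq
  simp only [Finset.univ_unique, Finset.prod_const, Finset.card_singleton, pow_one]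
  rfl

theorem law (χ : Character G) {Λ : ℂ → ℂ} (h : IsL 𝔪 c χ Λ) {γ : ℝ} (hγ : Real.pi / 2 < γ) :
    ∃ (m : ℤ) (ℓ : ℂ), meromorphicOrderAt Λ 0 = m ∧ lead Λ = Complex.exp ℓ ∧
      Asy (Pool.Agent.W187.UR.Lam γ) (fun T => -charSum 𝔪 c γ T χ) m ℓ := by
  obtain ⟨m, ℓ, h1, h2, h3⟩ := (csys 𝔪 c χ).law (L := Λ) (s₀ := 0) (fun s hs => by
    rw [add_zero] at hs
    rw [fac_eq]
    exact h.prod s hs) (by simp) (fun x _ _ => by
    by_cases hx : (0 : ℂ) + x = 1
    · rw [hx]; exact h.mero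
    · exact (h.analytic _ hx).meromorphicAt) hγ
  refine ⟨m, ℓ, h1, h2, ?_⟩
  simp only [Su_eq] at h3
  exact h3

theorem asy_neg {Λ : ℂ} {S : ℝ → ℂ} {m : ℤ} {r₀ : ℂ} (h : Asy Λ S m r₀) :
    Asy Λ (fun T => -S T) (-m) (-r₀) := by
  have h1 := IsBigO.neg_left h
  refine h1.congr_left fun T => ?_
  push_cast
  ring

theorem approx_rate (χ : Character G) {Λ : ℂ → ℂ} (h : IsL 𝔪 c χ Λ) {γ : ℝ} (hγ : Real.pi / 2 < γ)
    (r : Character G → ℤ) (hr : meromorphicOrderAt Λ 0 = r χ) (R : Character G → ℂ) :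
    (fun T : ℝ => approx 𝔪 c γ T r R χ - R χ / lead Λ) =O[atTop] (fun T : ℝ => 1 / T) := by
  obtain ⟨m, ℓ, h1, h2, h3⟩ := law χ h hγ
  have hm : m = r χ := by
    rw [h1] at hr
    exact_mod_cast hr
  have h4 := asy_main (asy_neg h3)
  have h5 := h4.const_mul_left (R χ)
  refine h5.congr_left fun T => ?_
  unfold approx
  rw [h2, ← hm, Complex.exp_neg ℓ]
  have e1 : Lambda γ = Pool.Agent.W187.UR.Lam γ := rfl
  rw [e1]
  unfold sc
  rw [neg_neg]
  ring

/-- duality -/
theorem dual (A : Character G → ℂ) (χ : Character G) : ∑ g, coef A g * value χ g = A χ := by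
  classical
  have hc0 : (Fintype.card G : ℂ) ≠ 0 := by exact_mod_cast Fintype.card_ne_zero
  have h1 : ∀ ψ : Character G, ∑ g : G, value ψ g⁻¹ * value χ g =
      if χ = ψ then (Fintype.card G : ℂ) else 0 := by
    intro ψ
    have h2 := AddChar.sum_eq_ite (χ - ψ)
    have hcard : Fintype.card (Additive G) = Fintype.card G := Fintype.card_congr Additive.toMul
    rw [hcard] at h2
    have h3 : ∑ g : G, value ψ g⁻¹ * value χ g = ∑ a : Additive G, (χ - ψ) a := by
      rw [← Equiv.sum_comp Additive.ofMul (fun a => (χ - ψ) a)]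
      refine Finset.sum_congr rfl fun g _ => ?_
      rw [AddChar.sub_apply, mul_comm]
      rfl
    rw [h3, h2]
    simp only [sub_eq_zero]
  calc ∑ g, coef A g * value χ g = (Fintype.card G : ℂ)⁻¹ *
        ∑ ψ : Character G, A ψ * ∑ g : G, value ψ g⁻¹ * value χ g := by
        unfold coef
        simp only [Finset.mul_sum, Finset.sum_mul]
        rw [Finset.sum_comm]
        refine Finset.sum_congr rfl fun ψ _ => Finset.sum_congr rfl fun g _ => by ring
    _ = A χ := by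
        simp only [h1]
        rw [Finset.sum_eq_single χ]
        · rw [if_pos rfl]
          field_simp
        · intro ψ _ hψ
          rw [if_neg (Ne.symm hψ), mul_zero]
        · intro h
          exact absurd (Finset.mem_univ _) h

/-- conjugation permutes the characters -/
noncomputable def conjEquiv (σ : ℂ ≃+* ℂ) : Character G ≃ Character G where
  toFun := conj σ
  invFun := conj σ.symm
  left_inv χ := by
    ext a
    show σ.symm (σ (χ a)) = χ a
    exact σ.symm_apply_apply _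
  right_inv χ := by
    ext a
    show σ (σ.symm (χ a)) = χ a
    exact σ.apply_symm_apply _

/-- Stark's formula for all the characters means that the element of the group ring is rational -/
theorem stark_iff (A : Character G → ℂ) :
    (∀ (σ : ℂ ≃+* ℂ) (χ : Character G), σ (A χ) = A (conj σ χ)) ↔ ∀ g, ∃ q : ℚ, coef A g = q := by
  constructor
  · intro h g
    have hfix : ∀ σ : ℂ ≃+* ℂ, σ (coef A g) = coef A g := by
      intro σ
      unfold coef
      rw [map_mul, map_inv₀, map_natCast, map_sum]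
      congr 1
      rw [← Equiv.sum_comp (conjEquiv σ) (fun χ => A χ * value χ g⁻¹)]
      refine Finset.sum_congr rfl fun χ _ => ?_
      rw [map_mul, h]
      rfl
    by_contra hcon
    have hq : coef A g ∉ (⊥ : Subfield ℂ) := by
      intro hb
      apply hcon
      have h2 : (⊥ : Subfield ℂ) ≤ (algebraMap ℚ ℂ).fieldRange := bot_le
      obtain ⟨q, hq⟩ := h2 hb
      exact ⟨q, by rw [← hq]; rfl⟩
    obtain ⟨σ, -, hσ⟩ := Pool.Agent.TH119.MX.exists_move hq
    exact hσ (hfix σ)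
  · intro h σ χ
    rw [← dual A χ, ← dual A (conj σ χ), map_sum]
    refine Finset.sum_congr rfl fun g _ => ?_
    obtain ⟨q, hq⟩ := h g
    rw [map_mul, hq, map_ratCast]
    rfl

end aux

open Pool.Agent.X287.ST Pool.Agent.X287.CR in
/-- **Stark's conjecture for all the characters of abelian extensions.** -/
theorem result (K : Type) [Field K] [NumberField K] (𝔪 : Ideal (𝓞 K)) (h0 : 𝔪 ≠ ⊥) (h1 : 𝔪 ≠ ⊤)
    (G : Type) [CommGroup G] [Fintype G] (c : Ideal (𝓞 K) → G) (hc : IsClassMap 𝔪 c)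
    (γ : ℝ) (hγ : Real.pi / 2 < γ) :
    -- 1. continuation, uniqueness, absolute convergence
    (∀ χ : Character G, ∃ Λ, IsL 𝔪 c χ Λ) ∧
    (∀ (χ : Character G) (Λ Λ' : ℂ → ℂ), IsL 𝔪 c χ Λ → IsL 𝔪 c χ Λ' → ∀ s, s ≠ 1 → Λ s = Λ' s) ∧
    (∀ (χ : Character G) (T : ℝ), 0 < T → Summable fun x => ‖term 𝔪 c γ T χ x‖) ∧
    ∀ Λ : Character G → ℂ → ℂ, (∀ χ, IsL 𝔪 c χ (Λ χ)) →
    ∃ r : Character G → ℤ, (∀ χ, meromorphicOrderAt (Λ χ) 0 = r χ ∧ InfinitePlace.nrComplexPlaces K ≤ r χ) ∧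
      -- 2. order and leading coefficient
      (∀ χ, ∃ ℓ : ℂ, lead (Λ χ) = Complex.exp ℓ ∧
        (fun T : ℝ => charSum 𝔪 c γ T χ - (ℓ - r χ * (Real.log T - Lambda γ))) =O[atTop]
          (fun T : ℝ => 1 / T)) ∧
      ∀ R : Character G → ℂ,
        (∀ χ, (fun T : ℝ => approx 𝔪 c γ T r R χ - R χ / lead (Λ χ)) =O[atTop] (fun T : ℝ => 1 / T)) ∧
        -- 3. Stark's formula for all characters
        ((∀ (σ : ℂ ≃+* ℂ) (χ : Character G),
            σ (R χ / lead (Λ χ)) = R (conj σ χ) / lead (Λ (conj σ χ))) ↔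
          ∀ g, ∃ q : ℚ, coef (fun χ => R χ / lead (Λ χ)) g = q) ∧
        ((∀ (σ : ℂ ≃+* ℂ) (χ : Character G),
            σ (R χ / lead (Λ χ)) = R (conj σ χ) / lead (Λ (conj σ χ))) ↔
          ∃ N : ℕ, 1 ≤ N ∧ ∀ ε > 0, ∀ T₀ : ℝ, ∃ T ≥ T₀, ∃ n : G → ℤ,
            ∀ g, ‖N * coef (approx 𝔪 c γ T r R) g - n g‖ < ε) ∧
        ((∀ (σ : ℂ ≃+* ℂ) (χ : Character G),
            σ (R χ / lead (Λ χ)) = R (conj σ χ) / lead (Λ (conj σ χ))) ↔
          ∃ N : ℕ, 1 ≤ N ∧ ∃ n : G → ℤ, ∀ g,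
            (fun T : ℝ => N * coef (approx 𝔪 c γ T r R) g - n g) =O[atTop] (fun T : ℝ => 1 / T)) := by
  classical
  have hcc : IsClassMapR 𝔪 ∅ c := ⟨hc.mul, fun x hx0 hx1 hx2 => hc.ray x hx0 hx1 fun σ => hx2 σ (by simp)⟩
  have huniq : ∀ (χ : Character G) (Λ Λ' : ℂ → ℂ), IsL 𝔪 c χ Λ → IsL 𝔪 c χ Λ' → ∀ s, s ≠ 1 →
      Λ s = Λ' s := by
    intro χ Λ Λ' h h' s hs
    have hpre : IsPreconnected ({1}ᶜ : Set ℂ) := by
      refine (isConnected_compl_singleton_of_one_lt_rank ?_ 1).isPreconnected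
      rw [Complex.rank_real_complex]
      norm_num
    have h2 : AnalyticOnNhd ℂ Λ {1}ᶜ := fun z hz => h.analytic z hz
    have h3 : AnalyticOnNhd ℂ Λ' {1}ᶜ := fun z hz => h'.analytic z hz
    have h4 : Λ =ᶠ[𝓝 (2 : ℂ)] Λ' := by
      have hopen : IsOpen {z : ℂ | 1 < z.re} := isOpen_lt continuous_const Complex.continuous_re
      filter_upwards [hopen.mem_nhds (show (2 : ℂ) ∈ {z : ℂ | 1 < z.re} by simp)] with z hz
      exact (h.prod z hz).unique (h'.prod z hz)
    exact h2.eqOn_of_preconnected_of_eventuallyEq h3 hpre (z₀ := (2 : ℂ)) (by simp) h4 hs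
  refine ⟨fun χ => ?_, huniq, fun χ T hT => ?_, fun Λ hΛ => ?_⟩
  · obtain ⟨Z, hZ, -⟩ := exists_PZ_ord h1 h0 hcc
    refine ⟨fun s => ∑ g, chr χ g * Z g s, fun s hs => ?_, fun s hs => ?_, ?_⟩
    · have h2 := hasProd_L h1 hcc.toClass χ hs fun σ => hZ.sum σ s hs
      rwa [fac_eq] at h2
    · exact Finset.analyticAt_fun_sum _ fun g _ => analyticAt_const.mul (hZ.an g s hs)
    · exact MeromorphicAt.fun_sum fun g _ => (MeromorphicAt.const _ _).mul (hZ.mer g)
  · have h2 := (csys 𝔪 c χ).tm_summable (s₀ := 0) (by simp) γ hT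
    refine h2.congr fun x => ?_
    rw [tm_eq, norm_neg]
  choose r ℓ hr hℓ hasy using fun χ => law χ (hΛ χ) hγ
  have h0T : Tendsto (fun T : ℝ => 1 / T) atTop (𝓝 (0 : ℝ)) :=
    tendsto_const_nhds.div_atTop tendsto_id
  have hlow : ∀ χ, (InfinitePlace.nrComplexPlaces K : ℤ) ≤ r χ := by
    intro χ
    obtain ⟨Z, hZ, hZ2⟩ := exists_PZ_ord h1 h0 hcc
    choose a ha using hZ2
    rw [Finset.card_empty, zero_add] at ha
    have h2 : Tendsto (fun s : ℂ => Λ χ s / (s - 0) ^ ((InfinitePlace.nrComplexPlaces K : ℕ) : ℤ)) (𝓝[≠] 0)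
        (𝓝 (∑ g, chr χ g * a g)) := by
      have h3 := tendsto_finsetSum (Finset.univ : Finset G) fun g _ => (ha g).const_mul (chr χ g)
      refine h3.congr' ?_
      have hev : ∀ᶠ s : ℂ in 𝓝 0, s ≠ 1 := isOpen_ne.mem_nhds (by norm_num)
      filter_upwards [hev.filter_mono nhdsWithin_le_nhds] with s hs
      have h4 : Λ χ s = ∑ g, chr χ g * Z g s := by
        refine huniq χ (Λ χ) (fun s => ∑ g, chr χ g * Z g s) (hΛ χ) ⟨fun s hs => ?_, fun s hs => ?_, ?_⟩ s hs
        · have h2 := hasProd_L h1 hcc.toClass χ hs fun σ => hZ.sum σ s hs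
          rwa [fac_eq] at h2
        · exact Finset.analyticAt_fun_sum _ fun g _ => analyticAt_const.mul (hZ.an g s hs)
        · exact MeromorphicAt.fun_sum fun g _ => (MeromorphicAt.const _ _).mul (hZ.mer g)
      rw [h4, sub_zero, zpow_natCast, Finset.sum_div]
      exact Finset.sum_congr rfl fun g _ => by ring
    have h3 : MeromorphicAt (Λ χ) 0 := ((hΛ χ).analytic 0 (by norm_num)).meromorphicAt
    exact ((mero_iff h3 (hr χ) (hℓ χ) _ _).1 h2).1
  refine ⟨r, fun χ => ⟨hr χ, hlow χ⟩, fun χ => ⟨ℓ χ, hℓ χ, ?_⟩, fun R => ?_⟩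
  · have h2 := IsBigO.neg_left (hasy χ)
    refine h2.congr_left fun T => ?_
    have e1 : Lambda γ = Pool.Agent.W187.UR.Lam γ := rfl
    rw [e1]
    ring
  have hrate : ∀ χ, (fun T : ℝ => approx 𝔪 c γ T r R χ - R χ / lead (Λ χ)) =O[atTop]
      (fun T : ℝ => 1 / T) := fun χ => approx_rate χ (hΛ χ) hγ r (hr χ) R
  have hS := stark_iff (fun χ => R χ / lead (Λ χ))
  -- the coefficients
  have hcoef : ∀ g, (fun T : ℝ => coef (approx 𝔪 c γ T r R) g -
      coef (fun χ => R χ / lead (Λ χ)) g) =O[atTop] (fun T : ℝ => 1 / T) := by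
    intro g
    have h2 : (fun T : ℝ => ∑ χ : Character G, value χ g⁻¹ * (approx 𝔪 c γ T r R χ - R χ / lead (Λ χ)))
        =O[atTop] (fun T : ℝ => 1 / T) := IsBigO.fun_sum fun χ _ => (hrate χ).const_mul_left _
    refine (h2.const_mul_left (Fintype.card G : ℂ)⁻¹).congr_left fun T => ?_
    unfold coef
    rw [← mul_sub, ← Finset.sum_sub_distrib]
    congr 1
    exact Finset.sum_congr rfl fun χ _ => by ring
  have hN : ∀ (N : ℕ) (g : G), (fun T : ℝ => N * coef (approx 𝔪 c γ T r R) g -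
      N * coef (fun χ => R χ / lead (Λ χ)) g) =O[atTop] (fun T : ℝ => 1 / T) := by
    intro N g
    refine ((hcoef g).const_mul_left (N : ℂ)).congr_left fun T => by ring
  -- (b) implies (d)
  have hbd : (∀ g, ∃ q : ℚ, coef (fun χ => R χ / lead (Λ χ)) g = q) →
      ∃ N : ℕ, 1 ≤ N ∧ ∃ n : G → ℤ, ∀ g,
        (fun T : ℝ => N * coef (approx 𝔪 c γ T r R) g - n g) =O[atTop] (fun T : ℝ => 1 / T) := by
    intro h
    choose q hq using h
    set N : ℕ := ∏ g, (q g).den with hNdef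
    have hNpos : 1 ≤ N := Nat.one_le_iff_ne_zero.2 (Finset.prod_ne_zero_iff.2 fun g _ => (q g).den_nz)
    have hint : ∀ g, ∃ n : ℤ, (N : ℚ) * q g = n := by
      intro g
      obtain ⟨k, hk⟩ : (q g).den ∣ N := Finset.dvd_prod_of_mem (fun g => (q g).den) (Finset.mem_univ g)
      refine ⟨k * (q g).num, ?_⟩
      rw [hk]
      push_cast
      have h3 := Rat.den_mul_eq_num (q g)
      linear_combination (k : ℚ) * h3
    choose n hn using hint
    refine ⟨N, hNpos, n, fun g => ?_⟩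
    refine (hN N g).congr_left fun T => ?_
    have h4 : (N : ℂ) * coef (fun χ => R χ / lead (Λ χ)) g = n g := by
      rw [hq g]
      exact_mod_cast hn g
    rw [h4]
  have hdc : ∀ N : ℕ, (∃ n : G → ℤ, ∀ g,
      (fun T : ℝ => N * coef (approx 𝔪 c γ T r R) g - n g) =O[atTop] (fun T : ℝ => 1 / T)) →
      ∀ ε > 0, ∀ T₀ : ℝ, ∃ T ≥ T₀, ∃ n : G → ℤ,
        ∀ g, ‖N * coef (approx 𝔪 c γ T r R) g - n g‖ < ε := by
    rintro N ⟨n, hn⟩ ε hε T₀
    have h3 : ∀ᶠ T : ℝ in atTop, ∀ g, ‖N * coef (approx 𝔪 c γ T r R) g - n g‖ < ε := by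
      rw [eventually_all]
      intro g
      have h4 := ((hn g).trans_tendsto h0T).norm
      rw [norm_zero] at h4
      exact h4.eventually_lt_const hε
    obtain ⟨T, hT1, hT2⟩ := (h3.and (eventually_ge_atTop T₀)).exists
    exact ⟨T, hT2, n, hT1⟩
  -- (c) implies (b)
  have hcb : (∃ N : ℕ, 1 ≤ N ∧ ∀ ε > 0, ∀ T₀ : ℝ, ∃ T ≥ T₀, ∃ n : G → ℤ,
      ∀ g, ‖N * coef (approx 𝔪 c γ T r R) g - n g‖ < ε) →
      ∀ g, ∃ q : ℚ, coef (fun χ => R χ / lead (Λ χ)) g = q := by
    rintro ⟨N, hN1, h⟩ g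
    set a : ℂ := N * coef (fun χ => R χ / lead (Λ χ)) g with ha
    have hclose : ∀ δ : ℝ, 0 < δ → ∃ n : ℤ, ‖a - n‖ < δ := by
      intro δ hδ
      have h3 : ∀ᶠ T : ℝ in atTop, ‖N * coef (approx 𝔪 c γ T r R) g - a‖ < δ / 2 := by
        have h4 := ((hN N g).trans_tendsto h0T).norm
        rw [norm_zero] at h4
        exact h4.eventually_lt_const (by positivity)
      obtain ⟨T₀, hT₀⟩ := eventually_atTop.1 h3
      obtain ⟨T, hT, n, hn⟩ := h (δ / 2) (by positivity) T₀
      refine ⟨n g, ?_⟩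
      have h5 : a - n g = (N * coef (approx 𝔪 c γ T r R) g - n g) -
          (N * coef (approx 𝔪 c γ T r R) g - a) := by ring
      rw [h5]
      calc _ ≤ ‖N * coef (approx 𝔪 c γ T r R) g - n g‖ + ‖N * coef (approx 𝔪 c γ T r R) g - a‖ :=
            norm_sub_le _ _
        _ < δ := by
          have := hn g
          have := hT₀ T hT
          linarith
    have hint : ∃ n : ℤ, a = n := by
      obtain ⟨n, hn⟩ := hclose (1 / 4) (by norm_num)
      refine ⟨n, ?_⟩
      by_contra hne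
      have hpos : 0 < ‖a - n‖ := norm_pos_iff.2 (sub_ne_zero.2 hne)
      obtain ⟨n', hn'⟩ := hclose (min (1 / 4) ‖a - n‖) (lt_min (by norm_num) hpos)
      have h6 : ‖((n - n' : ℤ) : ℂ)‖ < 1 := by
        have h7 : ((n - n' : ℤ) : ℂ) = (a - n') - (a - n) := by push_cast; ring
        rw [h7]
        calc _ ≤ ‖a - n'‖ + ‖a - n‖ := norm_sub_le _ _
          _ < 1 := by
            have := hn'.trans_le (min_le_left _ _)
            linarith
      rw [Complex.norm_intCast] at h6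
      have h8 : n - n' = 0 := by
        have h9 : |n - n'| < 1 := by exact_mod_cast h6
        exact Int.abs_lt_one_iff.1 h9
      have h10 : n = n' := by omega
      rw [← h10] at hn'
      exact absurd (hn'.trans_le (min_le_right _ _)) (lt_irrefl _)
    obtain ⟨n, hn⟩ := hint
    refine ⟨(n : ℚ) / N, ?_⟩
    have hN0 : (N : ℂ) ≠ 0 := by exact_mod_cast (by omega : N ≠ 0)
    push_cast
    rw [eq_div_iff hN0, ← hn, ha]
    ring
  refine ⟨hrate, hS, ?_, ?_⟩
  · rw [hS]
    constructor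
    · intro h
      obtain ⟨N, hN1, h2⟩ := hbd h
      exact ⟨N, hN1, hdc N h2⟩
    · exact hcb
  · rw [hS]
    constructor
    · exact hbd
    · rintro ⟨N, hN1, h2⟩
      exact hcb ⟨N, hN1, hdc N h2⟩

end Pool.Agent.Results.MP_46b841_nt.AbelianCharactersUnconditional
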