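import Pool.Agent.X208.BR.Conv

/-!
# Stark's conjecture: almost all abelian layers suffice

Number fields are subfields of `ℚ̄`, `G K = Gal(ℚ̄/K)`, characters are those of complex representations
of finite dimension and finite level. The Stark quotients `A_S(χ, φ_S) = R_S(χ, φ_S) / L_S^*(0, χ)` enter
through their known formal properties (`StarkSystem`): additivity, invariance under induction, and the
independence of the quotients `A(χ)^σ / A(χ^σ)` of the choices of `L`, `S` and `φ_S`.

Let `χ` be a character of a number field `K`. Let `M/K` be a Galois extension with elementary abelian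
group of exponent `p`. The *layers* of `M/K` are the sets of the fields `K ⊂ K' ⊂ M` of degree `p` and of
degree `p²` over `K`.

1. If Stark's conjecture fails for the `p`-th power of the quotients, i.e.
   `(A(χ)^p)^σ ≠ A(χ^σ)^p` for some `σ`, then it fails for the restriction of `χ` to many layers:
   if `x` and `y` are the proportions of the fields of degree `p` and of degree `p²` over which it fails,
   then `(p + 1) x + y ≥ 1`.
2. If Stark's conjecture fails for `χ`, then this is so for all `M` and all primes `p` with at most one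
   exception `p₀`, so `x ≥ 1/(p+2)` or `y ≥ 1/(p+2)`, and for `[M : K] ≥ p²` there is at least one such
   field.
3. (Almost all implies all.) If for two different primes `p`, `ℓ` there are such extensions `M/K` and
   `M'/K` for which Stark's conjecture holds for the restriction of `χ` to more than `(p+1)/(p+2)` of the
   fields of both layers of `M/K`, and to more than `(ℓ+1)/(ℓ+2)` of the fields of both layers of `M'/K`,
   then it holds for `χ`.

Proof: the Brauer relation `p·1 + 1_1^* = ∑ 1_B^*` of `(ℤ/p)²`, multiplied by `χ`, and double counting.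
-/

set_option autoImplicit false

open Module

namespace Pool.Agent.Results.MP_46b841_nt.AlmostAllAbelianLayers

open Pool.Agent.X208.BR Pool.Agent.X208.BR.Pk

/-- **Stark's conjecture: almost all abelian layers suffice.** -/
theorem result (T : Pk.StarkSystem) (K : Fld) (hK : IsNF K) (χ : G K → ℂ) (hχ : IsArtin K χ) :
    -- 1. the proportion of the layers over which the conjecture fails
    (∀ (p : ℕ) (M : Fld), p.Prime → Pk.IsElementary p K M →
      (∃ (L : Fld) (σ : ℂ ≃+* ℂ), Pk.Over L K ∧ Pk.IsCharOf L K χ ∧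
        (σ (T.A L K χ)) ^ p ≠ ((T.A L K (fun g => σ (χ g)) : ℂˣ) : ℂ) ^ p) →
      (Pk.layer K M p).ncard * (Pk.layer K M (p ^ 2)).ncard ≤
        (Pk.layer K M p).ncard * (T.failing K M χ (p ^ 2)).ncard +
          (p + 1) * (Pk.layer K M (p ^ 2)).ncard * (T.failing K M χ p).ncard) ∧
    -- 2. all primes but at most one
    (¬ T.Holds K χ → ∃ p₀ : ℕ, ∀ (p : ℕ) (M : Fld), p.Prime → p ≠ p₀ → Pk.IsElementary p K M →
      (Pk.layer K M p).ncard * (Pk.layer K M (p ^ 2)).ncard ≤
        (Pk.layer K M p).ncard * (T.failing K M χ (p ^ 2)).ncard +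
          (p + 1) * (Pk.layer K M (p ^ 2)).ncard * (T.failing K M χ p).ncard ∧
      ((Pk.layer K M p).ncard ≤ (p + 2) * (T.failing K M χ p).ncard ∨
        (Pk.layer K M (p ^ 2)).ncard ≤ (p + 2) * (T.failing K M χ (p ^ 2)).ncard) ∧
      (p ^ 2 * deg K ≤ deg M → ∃ n, (n = p ∨ n = p ^ 2) ∧ (T.failing K M χ n).Nonempty)) ∧
    -- 3. almost all implies all
    (∀ (p ℓ : ℕ) (M M' : Fld), p.Prime → ℓ.Prime → p ≠ ℓ →
      Pk.IsElementary p K M → Pk.IsElementary ℓ K M' →
      (p + 2) * (T.failing K M χ p).ncard < (Pk.layer K M p).ncard →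
      (p + 2) * (T.failing K M χ (p ^ 2)).ncard < (Pk.layer K M (p ^ 2)).ncard →
      (ℓ + 2) * (T.failing K M' χ ℓ).ncard < (Pk.layer K M' ℓ).ncard →
      (ℓ + 2) * (T.failing K M' χ (ℓ ^ 2)).ncard < (Pk.layer K M' (ℓ ^ 2)).ncard →
      T.Holds K χ) := by
  have hχ' := (artin_iff K χ).1 hχ
  have hineq : ∀ (p : ℕ) (M : Fld), LayerIneq T.conv p K M χ →
      (Pk.layer K M p).ncard * (Pk.layer K M (p ^ 2)).ncard ≤
        (Pk.layer K M p).ncard * (T.failing K M χ (p ^ 2)).ncard +
          (p + 1) * (Pk.layer K M (p ^ 2)).ncard * (T.failing K M χ p).ncard := by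
    intro p M h
    rw [failing_conv, failing_conv]
    exact h
  have key : ¬ T.Holds K χ → ∃ p₀ : ℕ, ∀ (p : ℕ) (M : Fld), p.Prime → p ≠ p₀ →
      Pk.IsElementary p K M → LayerIneq T.conv p K M χ := by
    intro h
    rw [holds_conv] at h
    obtain ⟨σ, hσ⟩ := (not_holds_iff T.conv hK hχ').1 h
    obtain ⟨p₀, hp₀⟩ := exists_exceptional hσ
    exact ⟨p₀, fun p M hp hne hM =>
      layerIneq T.conv hp ((elem_iff p K M).1 hM) hχ' (hp₀ p hp hne)⟩
  have alt : ∀ (p : ℕ) (M : Fld), LayerIneq T.conv p K M χ →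
      ((Pk.layer K M p).ncard ≤ (p + 2) * (T.failing K M χ p).ncard ∨
        (Pk.layer K M (p ^ 2)).ncard ≤ (p + 2) * (T.failing K M χ (p ^ 2)).ncard) := by
    intro p M h
    rw [failing_conv, failing_conv]
    exact ineq_alt T.conv h
  refine ⟨?_, ?_, ?_⟩
  · rintro p M hp hM ⟨L, σ, hL, hχL, hne⟩
    exact hineq p M (layerIneq T.conv hp ((elem_iff p K M).1 hM) hχ'
      (defect_pow_ne T.conv ((over_iff L K).1 hL) hχL hne))
  · intro h
    obtain ⟨p₀, hp₀⟩ := key h
    refine ⟨p₀, fun p M hp hne hM => ?_⟩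
    have h1 := hp₀ p M hp hne hM
    refine ⟨hineq p M h1, alt p M h1, fun hd => ?_⟩
    obtain ⟨n, hn, h2⟩ := exists_failing T.conv hp ((elem_iff p K M).1 hM) hd h1
    refine ⟨n, hn, ?_⟩
    rw [failing_conv]
    exact h2
  · intro p ℓ M M' hp hℓ hne hM hM' h1 h2 h3 h4
    by_contra hcon
    obtain ⟨p₀, hp₀⟩ := key hcon
    by_cases h5 : p = p₀
    · have h6 : ℓ ≠ p₀ := fun h7 => hne (h5.trans h7.symm)
      rcases alt ℓ M' (hp₀ ℓ M' hℓ h6 hM') with h8 | h8 <;> omega
    · rcases alt p M (hp₀ p M hp h5 hM) with h8 | h8 <;> omega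

end Pool.Agent.Results.MP_46b841_nt.AlmostAllAbelianLayers
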