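import Pool.Agent.X242.UW3

/-!
# Universal rational weights and Galois equivariant approximations of leading terms of Artin `L`-series

**The weights.** For `r ≥ 0` and real `γ` let `C_r(γ) = (-1)^r (d/dt)^r (e^{iγt} / Γ(1 + t))` at `t = 0`, a polynomial in
`γ` with finitely many zeros. Fix `γ > π/2` with `C_r(γ) ≠ 0` and any rational numbers `ρ_N(n)` (`N, n ≥ 1`), for every
`N` almost all of them zero, with

`|ρ_N(n) - Re (N^r e^{iγ log n / N} / (C_r(γ) Γ(1 + log n / N)))| ≤ 1 / (N n²)`.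

Such numbers exist. They depend only on `r`, not on any field, character or `L`-series.

1. For every Dirichlet series `∑ a_n n^{-s}` which converges absolutely for `Re s > 1` and has a continuation which is
   meromorphic at the points of the segment `[0, 1]` and equal to `c s^r + O(s^{r+1})` at `0`:
   `∑_n ρ_N(n) a_n = c + O(1/N)` (finite sums). Nothing is assumed about zeros or about a functional equation.

**Artin `L`-series.** `L/K` is a Galois extension of number fields with group `G`, `S` a set of finite places, and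
`L_S(s, f) = exp (∑_{v ∉ S} ∑_{k ≥ 1} f(v^k) q_v^{-ks} / k)` for `f : G → ℂ`, where `f(v^k)` is the mean of `f` over the
Frobenius coset `Frob_v^k` (Artin's formula; for characters `f = χ` this is the Artin `L`-series). For a function
`f : G → E` with values in any field `E` of characteristic `0` the coefficients `a_n(f) ∈ E` of the Dirichlet series are
defined by the same formula, and `x_N(f) = ∑_n ρ_N(n) a_n(f) ∈ E`, a finite sum.

2. `L_S(s, f) = ∑ a_n(f) n^{-s}` for `Re s > 1`, and `x_N(σ ∘ f) = σ(x_N(f))` for all homomorphisms `σ : E → E'`.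
3. `x_N(f) = L_S^*(0, f) + O(1/N)` for all `f : G → ℂ` for which `L_S(s, f)` has the order `r` at `0`. So the leading
   terms of all Artin `L`-series are limits of exactly Galois equivariant algebraic numbers `x_N(χ) ∈ ℚ(χ)`, given by
   one and the same rational linear combination of the Dirichlet coefficients.
4. Let `σ ∈ Aut(ℂ)`, let `L_S(s, χ)` and `L_S(s, χ^σ)` have the order `r`, and let `R`, `R'` be arbitrary complex numbers
   (in Stark's conjecture `R = R_S(χ, φ)`, `R' = R_S(χ^σ, φ)`). Then `(R / L_S^*(0, χ))^σ = R' / L_S^*(0, χ^σ)` if and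
   only if `R / x_N(χ)` converges to some `A` and `R' / x_N(χ)^σ` converges to `A^σ`: Stark's conjecture says that `σ`
   commutes with this limit.
5. Let `χ` have values in a number field `E`, with the order `r` for all the `L_S(s, χ^τ)`, `τ : E → ℂ`, and let `R^τ` be
   complex numbers (`R^τ = R_S(χ^τ, φ)`). Equivalent are: there is an `e ∈ E` with `R^τ / L_S^*(0, χ^τ) = τ(e)` for all
   `τ` (Stark's conjecture for `χ`); there is an `e ∈ E` with `R^τ = lim τ(e x_N(χ))` for all `τ`: the vector of the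
   regulators is the limit of the elements `e x_N(χ)` of `E`; for some `D ≥ 1` the vector `(D R^τ / τ(x_N(χ)))_τ` comes
   arbitrarily close to the lattice of the integers of `E` for arbitrarily large `N`.

Proof: the expansion of the rotated means of a Dirichlet series at `0` (`Pool.Agent.X242.DR`).
-/

set_option autoImplicit false

open Filter Topology Asymptotics
open IsDedekindDomain NumberField

namespace Pool.Agent.Results.MP_46b841_nt.EquivariantApproximations

open Pool.Agent.X298.ST Pool.Agent.X242.DR Pool.Agent.X242.AR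

/-- quotients of the approximations -/
theorem quot_bigO {x : ℕ → ℂ} {l R : ℂ} (hl : l ≠ 0)
    (hO : (fun N : ℕ => x N - l) =O[atTop] fun N : ℕ => 1 / (N : ℝ))
    (hx : Tendsto x atTop (𝓝 l)) :
    (fun T : ℝ => R / x ⌊T⌋₊ - R / l) =O[atTop] fun T : ℝ => 1 / T := by
  have h1 : (fun N : ℕ => R / x N - R / l) =O[atTop] fun N : ℕ => 1 / (N : ℝ) := by
    have h2 : ∀ᶠ N in atTop, x N ≠ 0 := hx.eventually_ne hl
    have h3 : (fun N : ℕ => (-R / (x N * l)) * (x N - l)) =O[atTop]
        fun N : ℕ => (1 : ℝ) * (1 / (N : ℝ)) := by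
      refine IsBigO.mul ?_ hO
      have h4 : Tendsto (fun N : ℕ => -R / (x N * l)) atTop (𝓝 (-R / (l * l))) :=
        tendsto_const_nhds.div (hx.mul_const l) (mul_ne_zero hl hl)
      exact h4.isBigO_one ℝ
    simp only [one_mul] at h3
    refine h3.congr' ?_ EventuallyEq.rfl
    filter_upwards [h2] with N hN
    field_simp
    ring
  have h2 := h1.comp_tendsto (tendsto_nat_floor_atTop (α := ℝ))
  refine IsBigO.trans h2 ?_
  refine IsBigO.of_bound 2 ?_
  filter_upwards [eventually_ge_atTop (1 : ℝ)] with T hT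
  have h3 : T < ⌊T⌋₊ + 1 := Nat.lt_floor_add_one T
  have h4 : 1 ≤ ⌊T⌋₊ := Nat.le_floor (by simpa using hT)
  have h5 : (1 : ℝ) ≤ (⌊T⌋₊ : ℝ) := by exact_mod_cast h4
  simp only [Function.comp_def]
  rw [Real.norm_eq_abs, Real.norm_eq_abs, abs_of_pos (by positivity), abs_of_pos (by positivity),
    mul_one_div, div_le_div_iff₀ (by positivity) (by positivity)]
  linarith

/-- **Universal rational weights and equivariant approximations of leading terms.** -/
theorem result :
    -- 0. the weights exist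
    ((∀ r : ℕ, {γ : ℝ | Ck r γ = 0}.Finite) ∧ ∀ (r : ℕ) (γ : ℝ), ∃ ρ, IsRational r γ ρ) ∧
    ∀ (r : ℕ) (γ : ℝ), Real.pi / 2 < γ → Ck r γ ≠ 0 → ∀ ρ : ℕ → ℕ →₀ ℚ, IsRational r γ ρ →
    -- 1. all Dirichlet series
    (∀ (a : ℕ → ℂ) (Φ : ℂ → ℂ) (c : ℂ), IsSeries a Φ → a 0 = 0 →
      ((fun s : ℂ => Φ s - c * s ^ r) =O[𝓝[≠] 0] fun s : ℂ => s ^ (r + 1)) →
      (fun N : ℕ => comb (ρ N) a - c) =O[atTop] fun N : ℕ => 1 / (N : ℝ)) ∧
    ∀ (K L : Type) [Field K] [NumberField K] [Field L] [NumberField L] [Algebra K L] [IsGalois K L]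
      (S : Set (HeightOneSpectrum (𝓞 K))) (P : Places S → Ideal (𝓞 L)), IsAbove P →
    -- 2. the coefficients of the Artin `L`-series and the approximations
    (((∀ v k, (frob P v k).Nonempty) ∧ (∀ n, {y : Words S | size y = n}.Finite) ∧
        ∀ (f : (L ≃ₐ[K] L) → ℂ) (s : ℂ), 1 < s.re →
          LSeriesSummable (coef P f) s ∧ LSeries (coef P f) s = Complex.exp (logL P f s)) ∧
      ∀ (E E' : Type) [Field E] [CharZero E] [Field E'] [CharZero E'] (σ : E →+* E')
        (f : (L ≃ₐ[K] L) → E) (N : ℕ),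
        comb (ρ N) (coef P fun g => σ (f g)) = σ (comb (ρ N) (coef P f))) ∧
    -- 3. leading terms
    (∀ (f : (L ≃ₐ[K] L) → ℂ) (Λ : ℂ → ℂ), IsArtinL P f Λ → meromorphicOrderAt Λ 0 = (r : ℤ) →
      lead Λ ≠ 0 ∧
        (fun N : ℕ => comb (ρ N) (coef P f) - lead Λ) =O[atTop] fun N : ℕ => 1 / (N : ℝ)) ∧
    -- 4. a character and an automorphism of `ℂ`
    (∀ (f : (L ≃ₐ[K] L) → ℂ) (σ : ℂ ≃+* ℂ) (Λ Λ' : ℂ → ℂ), IsArtinL P f Λ →
      IsArtinL P (fun g => σ (f g)) Λ' → meromorphicOrderAt Λ 0 = (r : ℤ) →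
      meromorphicOrderAt Λ' 0 = (r : ℤ) → ∀ R R' : ℂ,
      (σ (R / lead Λ) = R' / lead Λ' ↔
        ∃ A : ℂ, Tendsto (fun N => R / comb (ρ N) (coef P f)) atTop (𝓝 A) ∧
          Tendsto (fun N => R' / σ (comb (ρ N) (coef P f))) atTop (𝓝 (σ A)))) ∧
    -- 5. a character with values in a number field
    (∀ (E : Type) [Field E] [NumberField E] (f : (L ≃ₐ[K] L) → E) (Λ : (E →+* ℂ) → ℂ → ℂ),
      (∀ τ, IsArtinL P (fun g => τ (f g)) (Λ τ)) →
      (∀ τ, meromorphicOrderAt (Λ τ) 0 = (r : ℤ)) → ∀ R : (E →+* ℂ) → ℂ,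
      ((∃ e : E, ∀ τ, R τ / lead (Λ τ) = τ e) ↔
        ∃ e : E, ∀ τ, Tendsto (fun N => τ (e * comb (ρ N) (coef P f))) atTop (𝓝 (R τ))) ∧
      ((∃ e : E, ∀ τ, R τ / lead (Λ τ) = τ e) ↔
        ∃ D : ℕ, 1 ≤ D ∧ ∀ ε : ℝ, 0 < ε → ∀ N₀ : ℕ, ∃ N ≥ N₀, ∃ z : 𝓞 E, ∀ τ,
          ‖D * (R τ / τ (comb (ρ N) (coef P f))) - τ (z : E)‖ < ε)) := by
  refine ⟨⟨rot_finite, exists_rational⟩, fun r γ hγ hC ρ hρ =>
    ⟨fun a Φ c h ha hc => h.universal ha r c hγ hC hc hρ,
      fun K L _ _ _ _ _ _ S P hP => ⟨⟨⟨frob_nonempty hP, finite_size, fun f s hs => series P f hs⟩,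
        fun E E' _ _ _ _ σ f N => comb_map σ (ρ N) f⟩, fun f Λ h hr => ?_,
        fun f σ Λ Λ' h h' hr hr' R R' => ?_, fun E _ _ f Λ h hr R => ?_⟩⟩⟩
  · obtain ⟨h1, h2, _⟩ := comb_lead h hr hγ hC hρ
    exact ⟨h1, h2⟩
  · obtain ⟨h1, _, h3⟩ := comb_lead h hr hγ hC hρ
    obtain ⟨h1', _, h3'⟩ := comb_lead h' hr' hγ hC hρ
    have e1 : (fun N : ℕ => comb (ρ N) (coef P fun g => σ (f g))) =
        fun N => σ (comb (ρ N) (coef P f)) := by
      funext N
      exact comb_map (σ : ℂ →+* ℂ) (ρ N) f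
    rw [e1] at h3'
    have t1 : Tendsto (fun N => R / comb (ρ N) (coef P f)) atTop (𝓝 (R / lead Λ)) :=
      tendsto_const_nhds.div h3 h1
    have t2 : Tendsto (fun N => R' / σ (comb (ρ N) (coef P f))) atTop (𝓝 (R' / lead Λ')) :=
      tendsto_const_nhds.div h3' h1'
    constructor
    · intro h4
      refine ⟨R / lead Λ, t1, ?_⟩
      rw [h4]
      exact t2
    · rintro ⟨A, h4, h5⟩
      rw [tendsto_nhds_unique t1 h4, tendsto_nhds_unique t2 h5]
  · have h1 : ∀ τ : E →+* ℂ, lead (Λ τ) ≠ 0 ∧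
        (fun N : ℕ => τ (comb (ρ N) (coef P f)) - lead (Λ τ)) =O[atTop]
          (fun N : ℕ => 1 / (N : ℝ)) ∧
        Tendsto (fun N : ℕ => τ (comb (ρ N) (coef P f))) atTop (𝓝 (lead (Λ τ))) := by
      intro τ
      have h2 := comb_lead (h τ) (hr τ) hγ hC hρ
      simp only [comb_map τ] at h2
      exact h2
    constructor
    · constructor
      · rintro ⟨e, he⟩
        refine ⟨e, fun τ => ?_⟩
        have h2 := (h1 τ).2.2.const_mul (τ e)
        have h3 : τ e * lead (Λ τ) = R τ := by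
          rw [← he τ]
          exact div_mul_cancel₀ _ (h1 τ).1
        rw [h3] at h2
        refine h2.congr fun N => ?_
        rw [map_mul]
      · rintro ⟨e, he⟩
        refine ⟨e, fun τ => ?_⟩
        have h2 := (h1 τ).2.2.const_mul (τ e)
        have h3 := he τ
        simp only [map_mul] at h3
        have h4 := tendsto_nhds_unique h3 h2
        rw [h4]
        exact mul_div_cancel_right₀ _ (h1 τ).1
    · rw [(lattice (b := fun τ T => R τ / τ (comb (ρ ⌊T⌋₊) (coef P f)))
        (A := fun τ => R τ / lead (Λ τ))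
        fun τ => quot_bigO (x := fun N => τ (comb (ρ N) (coef P f))) (h1 τ).1 (h1 τ).2.1
          (h1 τ).2.2).1]
      refine exists_congr fun D => and_congr_right fun _ => ?_
      constructor
      · intro h2 ε hε N₀
        obtain ⟨T, hT, z, hz⟩ := h2 ε hε N₀
        exact ⟨⌊T⌋₊, Nat.le_floor hT, z, hz⟩
      · intro h2 ε hε T₀
        obtain ⟨N, hN, z, hz⟩ := h2 ε hε ⌈T₀⌉₊
        refine ⟨N, (Nat.le_ceil T₀).trans (by exact_mod_cast hN), z, ?_⟩
        simpa using hz

end Pool.Agent.Results.MP_46b841_nt.EquivariantApproximations
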