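import Pool.Agent.X298.ST.Main

/-!
# Stark's conjecture and absolutely convergent sums over Frobenius cosets

`L/K` is a Galois extension of number fields with group `G`, `S` a set of finite places of `K`, and `P_v` (`v ∉ S`) is a
prime of `L` above `v`. `Frob_v^k ⊂ G` is the set of the elements which act as `x ↦ x^(q_v^k)` modulo `P_v` (a coset of the
inertia group, also for ramified `v`), and for a function `f` on `G` the mean of `f` over `Frob_v^k` is denoted by
`f(v^k)`. By Artin's formula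

`log L_S(s, f) = ∑_{v ∉ S} ∑_{k ≥ 1} f(v^k) q_v^{-ks} / k`,  `Re s > 1`,

for all characters `f = χ` of `G`; `L_S(s, f)` is taken in this sense for all functions `f` (for instance differences of
characters). The continuation to a function which is meromorphic at the points of the real segment `[0, 1]` (for
characters: Brauer's theorem) is assumed; `L_S^*(0, f)` is the leading coefficient at `0`. NO hypothesis on zeros is made,
in particular not on real zeros between `0` and `1`. For a fixed `γ > π/2` put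

`S_f(T) = ∑_{v ∉ S} ∑_{k ≥ 1} f(v^k) exp(iγ k log q_v / T) / (k Γ(1 + k log q_v / T))`,  `T > 0`,

an absolutely convergent sum. It is linear in `f`; for class functions `S_f(T) = ∑_C f(C) S_C(T)` with one sum `S_C(T)` for
every conjugacy class `C` of `G`, which does not involve `L`-functions.

1. `S_f(T) = log L_S^*(0, f) - r (log T - Λ(γ)) + O(1/T)` with the order `r` of `L_S(s, f)` at `0` and a logarithm of the
   leading coefficient. Hence for every `R` the approximations `B(T) = R exp(r Λ(γ) - S_f(T)) T^{-r}` satisfy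
   `B(T) = R / L_S^*(0, f) + O(1/T)`. With `R = R_S(χ, φ)` this computes Stark's quotient `A_S(χ, φ)`.
2. For every `σ ∈ Aut(ℂ)`, every `r` and all nonzero `R`, `R'` (in Stark's conjecture `R = R_S(χ, φ)`,
   `R' = R_S(χ^σ, φ)`): both `L`-functions have order `r` and `A_S(χ, φ)^σ = A_S(χ^σ, φ)` if and only if the approximations
   for `χ` converge to some `B ≠ 0` and those for `χ^σ` converge to `B^σ`.
3. Let `f = χ` have values in a number field `E` and let `R^τ ≠ 0` be given for all the embeddings `τ` of `E` (in Stark's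
   conjecture `R^τ = R_S(χ^τ, φ)`). Suppose that all the `L_S(s, χ^τ)` have the same order `r` at `0` (this is known). Then
   the following are equivalent:
   (a) Stark's conjecture for `χ`: there is an `e ∈ E` with `R^τ / L_S^*(0, χ^τ) = τ(e)` for all `τ`;
   (b) for some `N ≥ 1` the vector `(N B^τ(T))_τ` comes arbitrarily close to the lattice of the integers of `E` for
       arbitrarily large `T`;
   (c) for some `N ≥ 1` and some integer `x` of `E`: `N B^τ(T) = τ(x) + O(1/T)` for all `τ`.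

Proof: the rotated law of `Pool.Agent.X287.CR` for series with complex coefficients, here for arbitrary bounded
coefficients; discreteness of the ring of integers.
-/

set_option autoImplicit false

open Filter Topology Asymptotics
open IsDedekindDomain NumberField

namespace Pool.Agent.Results.MP_46b841_nt.RotatedLeadingTerms

open Pool.Agent.X298.ST

/-- **Stark's conjecture and absolutely convergent sums over Frobenius cosets.** -/
theorem result (K L : Type) [Field K] [NumberField K] [Field L] [NumberField L] [Algebra K L]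
    [IsGalois K L] (S : Set (HeightOneSpectrum (𝓞 K))) (P : Places S → Ideal (𝓞 L))
    (hP : IsAbove P) (γ : ℝ) (hγ : Real.pi / 2 < γ) :
    -- 0. the sets `Frob_v^k` are not empty, the sums converge absolutely and decompose into class sums
    ((∀ v k, (frob P v k).Nonempty) ∧
      (∀ (f : (L ≃ₐ[K] L) → ℂ) (T : ℝ), 0 < T → Summable fun x => ‖term P f γ T x‖) ∧
      (∀ (F : ConjClasses (L ≃ₐ[K] L) → ℂ) (T : ℝ), 0 < T →
        rotated P (fun g => F (ConjClasses.mk g)) γ T = ∑ᶠ C, F C * classSum P γ T C)) ∧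
    -- 1. order and leading coefficient
    (∀ (f : (L ≃ₐ[K] L) → ℂ) (Λ : ℂ → ℂ), IsArtinL P f Λ →
      ∃ (r : ℤ) (ℓ : ℂ), meromorphicOrderAt Λ 0 = r ∧ lead Λ = Complex.exp ℓ ∧
        (fun T : ℝ => rotated P f γ T - (ℓ - r * (Real.log T - Lambda γ))) =O[atTop]
          (fun T : ℝ => 1 / T) ∧
        Tendsto (fun T : ℝ => -(rotated P f γ T).re / Real.log T) atTop (𝓝 (r : ℝ)) ∧
        ∀ R : ℂ, (fun T : ℝ => approx P f γ r R T - R / lead Λ) =O[atTop] (fun T : ℝ => 1 / T)) ∧
    -- 2. a character and an automorphism of `ℂ`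
    (∀ (f : (L ≃ₐ[K] L) → ℂ) (σ : ℂ ≃+* ℂ) (Λ Λ' : ℂ → ℂ), IsArtinL P f Λ →
      IsArtinL P (fun g => σ (f g)) Λ' → ∀ (R R' : ℂ) (r : ℤ), R ≠ 0 → R' ≠ 0 →
      ((meromorphicOrderAt Λ 0 = r ∧ meromorphicOrderAt Λ' 0 = r ∧
          σ (R / lead Λ) = R' / lead Λ') ↔
        ∃ B : ℂ, B ≠ 0 ∧ Tendsto (approx P f γ r R) atTop (𝓝 B) ∧
          Tendsto (approx P (fun g => σ (f g)) γ r R') atTop (𝓝 (σ B)))) ∧
    -- 3. a character with values in a number field
    (∀ (E : Type) [Field E] [NumberField E] (f : (L ≃ₐ[K] L) → E) (Λ : (E →+* ℂ) → ℂ → ℂ),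
      (∀ τ, IsArtinL P (fun g => τ (f g)) (Λ τ)) → ∀ r : ℤ, (∀ τ, meromorphicOrderAt (Λ τ) 0 = r) →
      ∀ R : (E →+* ℂ) → ℂ,
      ((∃ e : E, ∀ τ, R τ / lead (Λ τ) = τ e) ↔
        ∃ N : ℕ, 1 ≤ N ∧ ∀ ε : ℝ, 0 < ε → ∀ T₀ : ℝ, ∃ T ≥ T₀, ∃ x : 𝓞 E, ∀ τ,
          ‖N * approx P (fun g => τ (f g)) γ r (R τ) T - τ (x : E)‖ < ε) ∧
      ((∃ e : E, ∀ τ, R τ / lead (Λ τ) = τ e) ↔
        ∃ N : ℕ, 1 ≤ N ∧ ∃ (x : 𝓞 E) (C T₀ : ℝ), ∀ T ≥ T₀, ∀ τ,
          ‖N * approx P (fun g => τ (f g)) γ r (R τ) T - τ (x : E)‖ ≤ C / T)) := by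
  refine ⟨⟨frob_nonempty hP, fun f T hT => term_summable P f γ hT, fun F T hT => rotated_class P F γ hT⟩,
    fun f Λ h => ?_, fun f σ Λ Λ' h h' R R' r hR hR' => ?_, fun E _ _ f Λ h r hr R => ?_⟩
  · obtain ⟨m, r₀, h1, h2, h3⟩ := asy h hγ
    refine ⟨m, r₀, h1, h2, ?_, ?_, fun R => approx_rate h hγ R h1⟩
    · have h4 : (fun T : ℝ => rotated P f γ T - (r₀ - m * (Real.log T - Lambda γ))) =
          fun T : ℝ => -(-rotated P f γ T - (m * (Real.log T - Lambda γ) - r₀)) := by
        funext T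
        ring
      rw [h4]
      exact h3.neg_left
    · have h5 := h3.order_lim
      simpa only [Complex.neg_re] using h5
  · constructor
    · rintro ⟨h1, h2, h3⟩
      have hne : R / lead Λ ≠ 0 := by
        obtain ⟨m, r₀, _, h5, _⟩ := asy h hγ
        rw [h5]
        exact div_ne_zero hR (Complex.exp_ne_zero _)
      refine ⟨R / lead Λ, hne, (approx_iff h hγ hR hne r).1 ⟨h1, rfl⟩, ?_⟩
      exact (approx_iff h' hγ hR' ((map_ne_zero σ).2 hne) r).1 ⟨h2, h3.symm⟩
    · rintro ⟨B, hB, h1, h2⟩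
      obtain ⟨h3, h4⟩ := (approx_iff h hγ hR hB r).2 h1
      obtain ⟨h5, h6⟩ := (approx_iff h' hγ hR' ((map_ne_zero σ).2 hB) r).2 h2
      exact ⟨h3, h5, by rw [h4, h6]⟩
  · exact lattice fun τ => approx_rate (h τ) hγ (R τ) (hr τ)

end Pool.Agent.Results.MP_46b841_nt.RotatedLeadingTerms
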